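import Pool.Agent.W695.KH.Chee2
import Pool.Agent.W695.KH.Wrap
import Pool.Agent.TH597.HX.Fin

/-!
# The KLS conjecture in Cheeger form for hierarchically exchangeable convex sets

Q1 for all symmetric convex bodies in the space of functions on the leaves of a rooted tree of depth
`k` (every node of level `j` has `m_j` children) which are invariant under the automorphisms of the
tree, with the constant `c^(k²) / ∏_j (1 + log N_j / m_j)`, `N_j` the number of the nodes of level `j`,
for sets of measure `1/2` (to which the infimum in the Cheeger constant may be restricted by a known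
theorem). Minkowski boundary measure. The constant depends only on the depth when every node of level
`j` has at least `log N_j` children.

Method: the weak Poincare inequality behind
`Pool.Agent.Results.MP_6d896a_gt.HierarchicallyExchangeable` and the formalised implication from
Poincare to Cheeger inequalities of the starting files (modules `KH`).
-/

set_option autoImplicit false

namespace Pool.Agent.Results.MP_8d00da_gt.HierarchicalExchangeableCheeger

open MeasureTheory Set
open scoped ENNReal InnerProductSpace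

/-- The leaves of the rooted tree of depth `k` in which every node of level `j` has `m j` children:
a leaf is the sequence of the choices of a child at the levels `0, …, k - 1`. -/
abbrev Leaf {k : ℕ} (m : Fin k → ℕ) : Type := (j : Fin k) → Fin (m j)

/-- Automorphisms of the tree, as permutations of the leaves: for every level `l`, two leaves have the
same ancestor of level `l` if and only if their images do. -/
def IsAut {k : ℕ} (m : Fin k → ℕ) (ψ : Equiv.Perm (Leaf m)) : Prop :=
  ∀ (l : ℕ) (x y : Leaf m), (∀ j : Fin k, j.val < l → x j = y j) ↔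
    (∀ j : Fin k, j.val < l → ψ x j = ψ y j)

/-- functions on the leaves -/
abbrev Arr {k : ℕ} (m : Fin k → ℕ) : Type := EuclideanSpace ℝ (Leaf m)

/-- `K = -K` does not change under the automorphisms of the tree. -/
structure Invariant {k : ℕ} (m : Fin k → ℕ) (K : Set (Arr m)) : Prop where
  aut : ∀ ψ : Equiv.Perm (Leaf m), IsAut m ψ → ∀ x y : Arr m, (∀ p, y p = x (ψ p)) →
    x ∈ K → y ∈ K
  symm : ∀ x ∈ K, -x ∈ K

/-- convex body: compact, convex, with nonempty interior -/
structure ConvexBody {k : ℕ} {m : Fin k → ℕ} (K : Set (Arr m)) : Prop where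
  conv : Convex ℝ K
  comp : IsCompact K
  int : (interior K).Nonempty

/-- Minkowski (exterior) boundary measure `μ⁺(A)` -/
noncomputable def bdry {k : ℕ} {m : Fin k → ℕ} (μ : Measure (Arr m)) (A : Set (Arr m)) : ℝ≥0∞ :=
  Filter.liminf (fun ε : ℝ => (μ (Metric.thickening ε A) - μ A) / ENNReal.ofReal ε)
    (nhdsWithin 0 (Set.Ioi 0))

/-- the halfspace `⟪u, x⟫ ≤ t` -/
def halfspace {k : ℕ} {m : Fin k → ℕ} (u : Arr m) (t : ℝ) : Set (Arr m) := {x | inner ℝ u x ≤ t}

/-- the uniform probability measure on `K` -/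
noncomputable def unif {k : ℕ} {m : Fin k → ℕ} (K : Set (Arr m)) : Measure (Arr m) :=
  (volume K)⁻¹ • volume.restrict K

/-- the inequality of Kannan, Lovasz and Simonovits with constant `c` for the uniform measure `μ` on
`K` and sets of measure `1/2`: if `t min(μ H, 1 - μ H) ≤ μ⁺(H)` for all halfspaces `H` then
`c t / 2 ≤ μ⁺(A)` for all measurable `A` with `μ A = 1/2`. -/
def KLSBoundHalf {k : ℕ} {m : Fin k → ℕ} (c : ℝ) (K : Set (Arr m)) : Prop :=
  ∀ t : ℝ≥0∞, (∀ (u : Arr m) (r : ℝ), u ≠ 0 →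
      t * min (unif K (halfspace u r)) (1 - unif K (halfspace u r)) ≤
        bdry (unif K) (halfspace u r)) →
    ∀ A : Set (Arr m), MeasurableSet A → unif K A = 1 / 2 →
      ENNReal.ofReal c * t * (1 / 2) ≤ bdry (unif K) A

/-- the number `m_0 ⋯ m_{j-1}` of the nodes of level `j` -/
noncomputable def nodes {k : ℕ} (m : Fin k → ℕ) (j : Fin k) : ℝ :=
  ∏ i ∈ Finset.univ.filter (fun i => i < j), (m i : ℝ)

/-- the factor `∏_j (1 + log N_j / m_j)` -/
noncomputable def factor {k : ℕ} (m : Fin k → ℕ) : ℝ :=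
  ∏ j, (1 + Real.log (nodes m j) / m j)

theorem nodes_nonneg {k : ℕ} {m : Fin k → ℕ} (hm : ∀ j, 1 ≤ m j) (j : Fin k) :
    0 ≤ Real.log (nodes m j) / m j := by
  refine div_nonneg (Real.log_nonneg ?_) (Nat.cast_nonneg _)
  refine Finset.prod_induction _ (fun x : ℝ => 1 ≤ x)
    (fun a b ha hb => one_le_mul_of_one_le_of_one_le ha hb) le_rfl fun i _ => ?_
  exact_mod_cast hm i

theorem factor_nonneg {k : ℕ} {m : Fin k → ℕ} (hm : ∀ j, 1 ≤ m j) : 0 ≤ factor m := by
  refine Finset.prod_nonneg fun j _ => ?_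
  have := nodes_nonneg hm j
  linarith

theorem factor_sq {k : ℕ} (m : Fin k → ℕ) : Pool.Agent.TH597.HX.Tr.F m = factor m ^ 2 := by
  unfold factor
  rw [← Finset.prod_pow]
  rfl

/-- **KLS (Cheeger form) for hierarchically exchangeable symmetric convex sets.** There is an absolute
constant `c > 0` such that for every `k ≥ 1`, all `m_0, …, m_{k-1} ≥ 1` and every convex body `K = -K`
in `ℝ^L`, `L` the leaves of the rooted tree of depth `k` in which every node of level `j` has `m_j`
children, invariant under the automorphisms of the tree: if `t min(μ H, 1 - μ H) ≤ μ⁺(H)` for all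
halfspaces `H`, then `μ⁺(A) ≥ c' t / 2` for all measurable `A` with `μ A = 1/2`, where `μ` is uniform
on `K` and `c' = c^(k²) / ∏_j (1 + log N_j / m_j)`, `N_j = m_0 ⋯ m_{j-1}`. -/
theorem result : ∃ c : ℝ, 0 < c ∧ ∀ (k : ℕ) (m : Fin k → ℕ), 1 ≤ k → (∀ j, 1 ≤ m j) →
    ∀ K : Set (Arr m), ConvexBody K → Invariant m K →
    KLSBoundHalf (c ^ (k ^ 2) / factor m) K := by
  obtain ⟨c₀, hc₀, H⟩ := Pool.Agent.W695.KH.cheeger_half
  obtain ⟨C₂, hC₂, h₂⟩ := Pool.Agent.TH597.HX.Fin'.weakD
  obtain ⟨c, hc⟩ : ∃ c : ℝ, c = min c₀ 1 / Real.sqrt C₂ := ⟨_, rfl⟩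
  have hc0 : 0 < c := by
    rw [hc]
    have := lt_min hc₀ one_pos
    positivity
  refine ⟨c, hc0, ?_⟩
  intro k m hk hm K hK hinv
  have hfac := Pool.Agent.TH597.HX.Fin'.fac_pos hm hC₂
  have hne' : Nonempty (Leaf m) := ⟨fun j => ⟨0, hm j⟩⟩
  have hD : ∀ g ∈ Pool.Agent.TH597.HX.Fin'.AG m, ∀ x, g x ∈ K ↔ x ∈ K :=
    Pool.Agent.TH597.HX.Fin'.set_of hinv.aut
  have key := H (Leaf m) K hK.conv hK.comp hK.int hinv.symm
    (C₂ ^ (k ^ 2) * Pool.Agent.TH597.HX.Tr.F m) hfac (by
      intro A hA hprob hnn hmeas hlc hiso s hs hcov v hv hvb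
      exact h₂ k m hk hm K hD _ hnn hmeas hlc hiso hprob s hs hcov v hv hvb)
  intro t ht A _ hA2
  have h1 : ENNReal.ofReal (c₀ / Real.sqrt (C₂ ^ (k ^ 2) * Pool.Agent.TH597.HX.Tr.F m)) * t *
      min (unif K A) (1 - unif K A) ≤ bdry (unif K) A := key (unif K) rfl t ht A hA2
  have hf0 := factor_nonneg hm
  have e : c ^ (k ^ 2) / factor m ≤
      c₀ / Real.sqrt (C₂ ^ (k ^ 2) * Pool.Agent.TH597.HX.Tr.F m) := by
    rw [factor_sq, Real.sqrt_mul (by positivity), Real.sqrt_sq hf0, ← div_div]
    refine div_le_div_of_nonneg_right ?_ hf0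
    have h3 : Real.sqrt (C₂ ^ (k ^ 2)) = Real.sqrt C₂ ^ (k ^ 2) := by
      rw [Real.sqrt_eq_iff_mul_self_eq (by positivity) (by positivity), ← mul_pow,
        Real.mul_self_sqrt hC₂.le]
    rw [h3, hc, div_pow]
    refine div_le_div_of_nonneg_right ?_ (by positivity)
    have hk2 : k ^ 2 ≠ 0 := by positivity
    have h4 : 0 ≤ min c₀ 1 := (lt_min hc₀ one_pos).le
    exact (pow_le_of_le_one h4 (min_le_right _ _) hk2).trans (min_le_left _ _)
  have h2 : min (1 / 2 : ℝ≥0∞) (1 - 1 / 2) = 1 / 2 := by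
    have : (1 : ℝ≥0∞) - 1 / 2 = 1 / 2 := by
      rw [one_div]
      exact ENNReal.one_sub_inv_two
    rw [this, min_self]
  have h3 : min (unif K A) (1 - unif K A) = 1 / 2 := by rw [hA2, h2]
  rw [h3] at h1
  refine le_trans ?_ h1
  gcongr

end Pool.Agent.Results.MP_8d00da_gt.HierarchicalExchangeableCheeger
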