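import Pool.Agent.W695.KH.Chee2
import Pool.Agent.TH594.KP.Weak

/-!
# The KLS conjecture in Cheeger form for convex sets of particle configurations

Q1 for all symmetric convex bodies in the space of configurations of `N` particles in `ℝ^d` which are
invariant under permutations of the particles within `q` species, with a constant depending only on
`d` and `q` and not on `N`, for sets of measure `1/2` (to which the infimum in the Cheeger constant
may be restricted by a known theorem). Minkowski boundary measure.

Method: the weak Poincare inequality behind `Pool.Agent.Results.MP_6d896a_gt.Particles` and the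
formalised implication from Poincare to Cheeger inequalities of the starting files (modules `KH`).
-/

set_option autoImplicit false

namespace Pool.Agent.Results.MP_8d00da_gt.ParticlesCheeger

open MeasureTheory Set
open scoped ENNReal InnerProductSpace

/-- configurations of `N` particles in `ℝ^d`: `x (i, α)` is the coordinate `α` of the particle `i` -/
abbrev Conf (N d : ℕ) : Type := EuclideanSpace ℝ (Fin N × Fin d)

/-- `K = -K` does not change when the particles are permuted within their species; `b i` is the
species of the particle `i`. -/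
structure Invariant {N d q : ℕ} (b : Fin N → Fin q) (K : Set (Conf N d)) : Prop where
  perm : ∀ σ : Equiv.Perm (Fin N), (∀ i, b (σ i) = b i) → ∀ x y : Conf N d,
    (∀ i α, y (i, α) = x (σ i, α)) → x ∈ K → y ∈ K
  symm : ∀ x ∈ K, -x ∈ K

/-- convex body: compact, convex, with nonempty interior -/
structure ConvexBody {N d : ℕ} (K : Set (Conf N d)) : Prop where
  conv : Convex ℝ K
  comp : IsCompact K
  int : (interior K).Nonempty

/-- Minkowski (exterior) boundary measure `μ⁺(A)` -/
noncomputable def bdry {N d : ℕ} (μ : Measure (Conf N d)) (A : Set (Conf N d)) : ℝ≥0∞ :=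
  Filter.liminf (fun ε : ℝ => (μ (Metric.thickening ε A) - μ A) / ENNReal.ofReal ε)
    (nhdsWithin 0 (Set.Ioi 0))

/-- the halfspace `⟪u, x⟫ ≤ t` -/
def halfspace {N d : ℕ} (u : Conf N d) (t : ℝ) : Set (Conf N d) := {x | inner ℝ u x ≤ t}

/-- the uniform probability measure on `K` -/
noncomputable def unif {N d : ℕ} (K : Set (Conf N d)) : Measure (Conf N d) :=
  (volume K)⁻¹ • volume.restrict K

/-- the inequality of Kannan, Lovasz and Simonovits with constant `c` for the uniform measure `μ` on
`K` and sets of measure `1/2`: if `t min(μ H, 1 - μ H) ≤ μ⁺(H)` for all halfspaces `H` then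
`c t / 2 ≤ μ⁺(A)` for all measurable `A` with `μ A = 1/2`. -/
def KLSBoundHalf {N d : ℕ} (c : ℝ) (K : Set (Conf N d)) : Prop :=
  ∀ t : ℝ≥0∞, (∀ (u : Conf N d) (r : ℝ), u ≠ 0 →
      t * min (unif K (halfspace u r)) (1 - unif K (halfspace u r)) ≤
        bdry (unif K) (halfspace u r)) →
    ∀ A : Set (Conf N d), MeasurableSet A → unif K A = 1 / 2 →
      ENNReal.ofReal c * t * (1 / 2) ≤ bdry (unif K) A

/-- **KLS (Cheeger form) for symmetric convex sets of particle configurations.** There is an absolute
constant `c > 0` such that for all `N, d ≥ 1`, all `q`, every surjective map `b` assigning to each of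
the `N` particles one of the `q` species and every convex body `K = -K` of configurations of `N`
particles in `ℝ^d` invariant under permutations of the particles preserving the species: if
`t min(μ H, 1 - μ H) ≤ μ⁺(H)` for all halfspaces `H`, then `μ⁺(A) ≥ c' t / 2` for all measurable `A`
with `μ A = 1/2`, where `μ` is uniform on `K` and `c' = c / (√q d² (1 + log q))`. -/
theorem result : ∃ c : ℝ, 0 < c ∧ ∀ N d q : ℕ, 1 ≤ N → 1 ≤ d →
    ∀ b : Fin N → Fin q, Function.Surjective b →
    ∀ K : Set (Conf N d), ConvexBody K → Invariant b K →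
    KLSBoundHalf (c / (Real.sqrt q * (d : ℝ) ^ 2 * (1 + Real.log q))) K := by
  obtain ⟨c, hc, H⟩ := Pool.Agent.W695.KH.cheeger_half
  obtain ⟨C₂, hC₂, h₂⟩ := Pool.Agent.TH594.KP.weakD
  refine ⟨c / Real.sqrt C₂, by positivity, ?_⟩
  intro N d q hN hd b hb K hK hinv
  have hq : 1 ≤ q := by
    have h1 : 0 < q := Fin.pos (b ⟨0, hN⟩)
    exact h1
  have hfac := Pool.Agent.TH594.KP.fac_pos hq hd
  have hne' : Nonempty (Fin N × Fin d) := ⟨(⟨0, hN⟩, ⟨0, hd⟩)⟩
  have hD : ∀ k l, b k = b l → ∀ x,
      Pool.Agent.TH594.KP.swp (δ := Fin d) k l x ∈ K ↔ x ∈ K := by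
    intro k l hkl x
    constructor
    · intro hx
      refine hinv.perm (Equiv.swap k l) (Pool.Agent.TH594.KP.swap_fix hkl) _ x
        (fun i α => ?_) hx
      rw [Pool.Agent.TH594.KP.swp_apply]
      simp
    · intro hx
      exact hinv.perm (Equiv.swap k l) (Pool.Agent.TH594.KP.swap_fix hkl) x _
        (fun i α => Pool.Agent.TH594.KP.swp_apply k l x (i, α)) hx
  have key := H (Fin N × Fin d) K hK.conv hK.comp hK.int hinv.symm
    (C₂ * Pool.Agent.TH594.KP.fac q d) (mul_pos hC₂ hfac) (by
      intro A hA hprob hnn hmeas hlc hiso s hs hcov v hv hvb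
      exact h₂ b hb hd hq K hD _ hnn hmeas hlc hiso hprob s hs hcov v hv hvb)
  intro t ht A _ hA2
  have h1 : ENNReal.ofReal (c / Real.sqrt (C₂ * Pool.Agent.TH594.KP.fac q d)) * t *
      min (unif K A) (1 - unif K A) ≤ bdry (unif K) A := key (unif K) rfl t ht A hA2
  have e : c / Real.sqrt (C₂ * Pool.Agent.TH594.KP.fac q d) =
      c / Real.sqrt C₂ / (Real.sqrt q * (d : ℝ) ^ 2 * (1 + Real.log q)) := by
    rw [Real.sqrt_mul hC₂.le, Pool.Agent.TH594.KP.sqrt_fac hq, div_div]
  rw [e] at h1
  have h2 : min (1 / 2 : ℝ≥0∞) (1 - 1 / 2) = 1 / 2 := by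
    have : (1 : ℝ≥0∞) - 1 / 2 = 1 / 2 := by
      rw [one_div]
      exact ENNReal.one_sub_inv_two
    rw [this, min_self]
  have h3 : min (unif K A) (1 - unif K A) = 1 / 2 := by rw [hA2, h2]
  rw [h3] at h1
  exact h1

end Pool.Agent.Results.MP_8d00da_gt.ParticlesCheeger
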