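import Pool.Agent.W695.KH.Chee2
import Pool.Agent.TH610.RB.Weak

/-!
# The KLS conjecture in Cheeger form for convex sets of tuples of vectors, rotation invariant in each
vector and symmetric inside blocks

Q1 for all convex bodies in `(ℝ^{m_1})^{k_1} × ⋯ × (ℝ^{m_b})^{k_b}` for which membership depends
only on the norms of the vectors and does not change when the vectors of the same block are permuted,
with the constant `c / (1 + T)` whenever `∑_β exp (- T k_β m_β) ≤ 1` (for example
`T = (log b) / min_β (k_β m_β)`; an absolute constant for one block, and whenever every block has at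
least `log b` coordinates), for sets of measure `1/2` (to which the infimum in the Cheeger constant
may be restricted by a known theorem). Minkowski boundary measure.

Method: the weak Poincare inequality behind `Pool.Agent.Results.MP_6d896a_gt.RadialBlocks` and the
formalised implication from Poincare to Cheeger inequalities of the starting files (modules `KH`).
-/

set_option autoImplicit false

namespace Pool.Agent.Results.MP_8d00da_gt.RadialBlocksCheeger

open MeasureTheory Set
open scoped ENNReal InnerProductSpace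

/-- `b` blocks, the block `β` consists of `k β` vectors of `ℝ^{m β}`: `x ⟨β, j, i⟩` is the coordinate
`i` of the vector `j` of the block `β` -/
abbrev Space (b : ℕ) (k m : Fin b → ℕ) : Type :=
  EuclideanSpace ℝ (Σ β : Fin b, Fin (k β) × Fin (m β))

/-- the Euclidean norm of the vector `j` of the block `β` -/
noncomputable def vecNorm {b : ℕ} {k m : Fin b → ℕ} (x : Space b k m) (β : Fin b)
    (j : Fin (k β)) : ℝ := Real.sqrt (∑ i, x ⟨β, j, i⟩ ^ 2)

/-- membership in `K` depends only on the norms of the vectors and does not change when the vectors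
inside the blocks are permuted (in particular `K = -K`) -/
def Invariant {b : ℕ} {k m : Fin b → ℕ} (K : Set (Space b k m)) : Prop :=
  ∀ σ : ∀ β, Equiv.Perm (Fin (k β)), ∀ x y : Space b k m,
    (∀ β j, vecNorm y β j = vecNorm x β (σ β j)) → x ∈ K → y ∈ K

/-- convex body: compact, convex, with nonempty interior -/
structure ConvexBody {b : ℕ} {k m : Fin b → ℕ} (K : Set (Space b k m)) : Prop where
  conv : Convex ℝ K
  comp : IsCompact K
  int : (interior K).Nonempty

/-- Minkowski (exterior) boundary measure `μ⁺(A)` -/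
noncomputable def bdry {b : ℕ} {k m : Fin b → ℕ} (μ : Measure (Space b k m))
    (A : Set (Space b k m)) : ℝ≥0∞ :=
  Filter.liminf (fun ε : ℝ => (μ (Metric.thickening ε A) - μ A) / ENNReal.ofReal ε)
    (nhdsWithin 0 (Set.Ioi 0))

/-- the halfspace `⟪u, x⟫ ≤ t` -/
def halfspace {b : ℕ} {k m : Fin b → ℕ} (u : Space b k m) (t : ℝ) : Set (Space b k m) :=
  {x | inner ℝ u x ≤ t}

/-- the uniform probability measure on `K` -/
noncomputable def unif {b : ℕ} {k m : Fin b → ℕ} (K : Set (Space b k m)) :
    Measure (Space b k m) := (volume K)⁻¹ • volume.restrict K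

/-- the inequality of Kannan, Lovasz and Simonovits with constant `c` for the uniform measure `μ` on
`K` and sets of measure `1/2`: if `t min(μ H, 1 - μ H) ≤ μ⁺(H)` for all halfspaces `H` then
`c t / 2 ≤ μ⁺(A)` for all measurable `A` with `μ A = 1/2`. -/
def KLSBoundHalf {b : ℕ} {k m : Fin b → ℕ} (c : ℝ) (K : Set (Space b k m)) : Prop :=
  ∀ t : ℝ≥0∞, (∀ (u : Space b k m) (r : ℝ), u ≠ 0 →
      t * min (unif K (halfspace u r)) (1 - unif K (halfspace u r)) ≤
        bdry (unif K) (halfspace u r)) →
    ∀ A : Set (Space b k m), MeasurableSet A → unif K A = 1 / 2 →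
      ENNReal.ofReal c * t * (1 / 2) ≤ bdry (unif K) A

/-- **KLS (Cheeger form) for convex bodies which are radial in each vector and symmetric in blocks.**
There is an absolute constant `c > 0` such that for all `b ≥ 1`, all `k β, m β ≥ 1` (`β < b`), all
`T ≥ 0` with `∑_β exp (- T k_β m_β) ≤ 1` and every convex body `K` in `∏_β (ℝ^{m β})^{k β}` for which
membership depends only on the norms of the vectors and is symmetric inside the blocks: if
`t min(μ H, 1 - μ H) ≤ μ⁺(H)` for all halfspaces `H`, then `μ⁺(A) ≥ c / (1 + T) · t / 2` for all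
measurable `A` with `μ A = 1/2`, where `μ` is uniform on `K`. -/
theorem result : ∃ c : ℝ, 0 < c ∧ ∀ (b : ℕ) (k m : Fin b → ℕ), 1 ≤ b → (∀ β, 1 ≤ k β) →
    (∀ β, 1 ≤ m β) → ∀ T : ℝ, 0 ≤ T → ∑ β, Real.exp (-(T * (k β * m β))) ≤ 1 →
    ∀ K : Set (Space b k m), ConvexBody K → Invariant K → KLSBoundHalf (c / (1 + T)) K := by
  obtain ⟨c, hc, H⟩ := Pool.Agent.W695.KH.cheeger_half
  have hCC := Pool.Agent.TH610.RB.CC_pos
  refine ⟨c / Real.sqrt (8 * Pool.Agent.TH610.RB.CC), by positivity, ?_⟩
  intro b k m hb hk hm T hT0 hT K hK hinv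
  have hne' : Nonempty (Σ β : Fin b, Fin (k β) × Fin (m β)) :=
    ⟨⟨⟨0, hb⟩, ⟨0, hk _⟩, ⟨0, hm _⟩⟩⟩
  have hD := Pool.Agent.TH610.RB.set_inv K hinv
  have hsymm : ∀ x ∈ K, -x ∈ K := by
    intro x hx
    refine hinv (fun _ => 1) x (-x) (fun β j => ?_) hx
    unfold vecNorm
    simp
  have key := H (Σ β : Fin b, Fin (k β) × Fin (m β)) K hK.conv hK.comp hK.int hsymm
    (8 * Pool.Agent.TH610.RB.CC * (1 + T) ^ 2) (by positivity) (by
      intro A hA hprob hnn hmeas hlc hiso s hs hcov v hv hvb
      exact Pool.Agent.TH610.RB.weakD hk hm T hT0 hT K hD _ hnn hmeas hlc hiso hprob s hs hcov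
        v hv hvb)
  intro t ht A _ hA2
  have h1 : ENNReal.ofReal (c / Real.sqrt (8 * Pool.Agent.TH610.RB.CC * (1 + T) ^ 2)) * t *
      min (unif K A) (1 - unif K A) ≤ bdry (unif K) A := key (unif K) rfl t ht A hA2
  have e : c / Real.sqrt (8 * Pool.Agent.TH610.RB.CC * (1 + T) ^ 2) =
      c / Real.sqrt (8 * Pool.Agent.TH610.RB.CC) / (1 + T) := by
    rw [Real.sqrt_mul (by positivity), Real.sqrt_sq (by linarith), div_div]
  rw [e] at h1
  have h2 : min (1 / 2 : ℝ≥0∞) (1 - 1 / 2) = 1 / 2 := by
    have : (1 : ℝ≥0∞) - 1 / 2 = 1 / 2 := by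
      rw [one_div]
      exact ENNReal.one_sub_inv_two
    rw [this, min_self]
  have h3 : min (unif K A) (1 - unif K A) = 1 / 2 := by rw [hA2, h2]
  rw [h3] at h1
  exact h1

end Pool.Agent.Results.MP_8d00da_gt.RadialBlocksCheeger
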