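import Pool.Agent.TH591.TT.FinS
import Pool.Agent.W695.KH.Chee

/-!
# The KLS conjecture in Cheeger form for rotation invariant symmetric convex bodies of tuples of
matrices and vectors

Q1 for all symmetric convex bodies `K` of tuples `(X_1, …, X_q, v_1, …, v_m)` of `q` real `N × N`
matrices and `m` vectors of `ℝ^N`, `3 ≤ N`, and in all rotation invariant linear subspaces of the
space of these tuples, which are invariant under the simultaneous rotations `X_j ↦ g X_j gᵀ`,
`v_i ↦ g v_i`, `g ∈ SO(N)`: the Cheeger constant of the uniform measure is at least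
`c / ((q + 1) (1 + (q + m) / N))` times the one for halfspaces, `c` absolute. Minkowski boundary
measure, all measurable sets.

Method: the Poincare inequality of `Pool.Agent.TH591.TT` and the formalised implication from
Poincare to Cheeger inequalities of the starting files (modules `W695.KH`).
-/

set_option autoImplicit false

namespace Pool.Agent.Results.MP_8d00da_gt.TensorTuplesCheeger

open MeasureTheory Set
open scoped ENNReal InnerProductSpace Matrix

/-- tuples of `q` real `N × N` matrices and `m` vectors of `ℝ^N`, with the Euclidean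
(Hilbert-Schmidt) structure -/
abbrev Tup (q m N : ℕ) : Type := EuclideanSpace ℝ ((Fin q × (Fin N × Fin N)) ⊕ (Fin m × Fin N))

/-- the matrix `X_j` of the tuple `x` -/
def mat {q m N : ℕ} (j : Fin q) (x : Tup q m N) : Matrix (Fin N) (Fin N) ℝ :=
  Matrix.of fun a b => x (Sum.inl (j, (a, b)))

/-- the vector `v_i` of the tuple `x` -/
def vec {q m N : ℕ} (i : Fin m) (x : Tup q m N) : Fin N → ℝ := fun a => x (Sum.inr (i, a))

/-- `g` is a rotation: `g ∈ SO(N)` -/
def Rotation {N : ℕ} (g : Matrix (Fin N) (Fin N) ℝ) : Prop := g * gᵀ = 1 ∧ g.det = 1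

/-- `y` is the tuple `x` rotated by `g`: `X_j ↦ g X_j gᵀ`, `v_i ↦ g v_i` -/
def Rotated {q m N : ℕ} (g : Matrix (Fin N) (Fin N) ℝ) (x y : Tup q m N) : Prop :=
  (∀ j, mat j y = g * mat j x * gᵀ) ∧ ∀ i, vec i y = g *ᵥ vec i x

/-- `ι` is a linear isometry of the Euclidean space `ℝ^κ` onto a linear subspace of the space of
tuples which is invariant under the rotations. -/
def InvSubspace {κ : Type} [Fintype κ] {q m N : ℕ} (ι : EuclideanSpace ℝ κ →ₗᵢ[ℝ] Tup q m N) :
    Prop :=
  ∀ g : Matrix (Fin N) (Fin N) ℝ, Rotation g → ∀ x, ∃ y, Rotated g (ι x) (ι y)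

/-- `K` (a set of elements of the subspace `ι(ℝ^κ)`) is invariant under the rotations. -/
def Invariant {κ : Type} [Fintype κ] {q m N : ℕ} (ι : EuclideanSpace ℝ κ →ₗᵢ[ℝ] Tup q m N)
    (K : Set (EuclideanSpace ℝ κ)) : Prop :=
  ∀ g : Matrix (Fin N) (Fin N) ℝ, Rotation g → ∀ x y, Rotated g (ι x) (ι y) → x ∈ K → y ∈ K

section defs

variable {κ : Type} [Fintype κ]

/-- convex body: compact, convex, with nonempty interior -/
structure ConvexBody (K : Set (EuclideanSpace ℝ κ)) : Prop where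
  conv : Convex ℝ K
  comp : IsCompact K
  int : (interior K).Nonempty

/-- Minkowski (exterior) boundary measure `μ⁺(A)` -/
noncomputable def bdry (μ : Measure (EuclideanSpace ℝ κ)) (A : Set (EuclideanSpace ℝ κ)) : ℝ≥0∞ :=
  Filter.liminf (fun ε : ℝ => (μ (Metric.thickening ε A) - μ A) / ENNReal.ofReal ε)
    (nhdsWithin 0 (Set.Ioi 0))

/-- the halfspace `⟪u, x⟫ ≤ b` -/
def halfspace (u : EuclideanSpace ℝ κ) (b : ℝ) : Set (EuclideanSpace ℝ κ) :=
  {x | inner ℝ u x ≤ b}

/-- the uniform probability measure on `K` -/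
noncomputable def unif (K : Set (EuclideanSpace ℝ κ)) : Measure (EuclideanSpace ℝ κ) :=
  (volume K)⁻¹ • volume.restrict K

/-- the inequality of Kannan, Lovasz and Simonovits with constant `c` for the uniform measure `μ` on
`K`: if `t min(μ H, 1 - μ H) ≤ μ⁺(H)` for all halfspaces `H` then `c t min(μ A, 1 - μ A) ≤ μ⁺(A)` for
all measurable `A`; that is, `D_Che(μ) ≥ c D_Che^Lin(μ)`. -/
def KLSBound (c : ℝ) (K : Set (EuclideanSpace ℝ κ)) : Prop :=
  ∀ t : ℝ≥0∞, (∀ (u : EuclideanSpace ℝ κ) (b : ℝ), u ≠ 0 →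
      t * min (unif K (halfspace u b)) (1 - unif K (halfspace u b)) ≤
        bdry (unif K) (halfspace u b)) →
    ∀ A : Set (EuclideanSpace ℝ κ), MeasurableSet A →
      ENNReal.ofReal c * t * min (unif K A) (1 - unif K A) ≤ bdry (unif K) A

end defs

/-- **KLS (Cheeger form) for rotation invariant symmetric convex bodies of tuples of matrices and
vectors.** There is an absolute constant `c > 0` such that for all `N ≥ 3` and all `q, m`, every
isometrically parametrised rotation invariant linear subspace `ι(ℝ^κ) ≠ 0` of the space of tuples of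
`q` real `N × N` matrices and `m` vectors of `ℝ^N` and every convex body `K = -K` in it invariant
under the rotations `X_j ↦ g X_j gᵀ`, `v_i ↦ g v_i`, `g ∈ SO(N)`:
`D_Che(λ_K) ≥ c / ((q + 1) (1 + (q + m) / N)) D_Che^Lin(λ_K)`. -/
theorem result : ∃ c : ℝ, 0 < c ∧ ∀ q m N : ℕ, 3 ≤ N → ∀ (κ : Type) [Fintype κ] [Nonempty κ]
    (ι : EuclideanSpace ℝ κ →ₗᵢ[ℝ] Tup q m N), InvSubspace ι →
    ∀ K : Set (EuclideanSpace ℝ κ), ConvexBody K → (∀ x ∈ K, -x ∈ K) → Invariant ι K →
    KLSBound (c / ((q + 1) * (1 + (q + m) / N))) K := by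
  obtain ⟨c, hc, H⟩ := Pool.Agent.W695.KH.cheeger
  obtain ⟨C, hC, h⟩ := TH591.TT.spS
  refine ⟨c / Real.sqrt C, by positivity, ?_⟩
  intro q m N hN κ _ _ ι hι K hK hsym hinv
  have hrot : ∀ g : Matrix (Fin N) (Fin N) ℝ, Rotation g ↔ TH591.TT.IsSO g := by
    intro g
    constructor
    · rintro ⟨h1, h2⟩
      exact ⟨(Matrix.mem_orthogonalGroup_iff (Fin N) ℝ).2 h1, h2⟩
    · rintro ⟨h1, h2⟩
      exact ⟨TH591.TT.orth1 h1, h2⟩
  have hact : ∀ (g : Matrix (Fin N) (Fin N) ℝ) (x y : Tup q m N),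
      Rotated g x y ↔ y = TH591.TT.RR g x := by
    intro g x y
    constructor
    · rintro ⟨h1, h2⟩
      refine TH591.TT.ext_mv h1 ?_
      ext a i
      exact congrFun (h2 i) a
    · intro h1
      subst h1
      exact ⟨fun j => rfl, fun i => rfl⟩
  have hι' : TH591.TT.InvR ι := by
    intro g hg x
    obtain ⟨y, hy⟩ := hι g ((hrot g).2 hg) x
    exact ⟨y, (hact g _ _).1 hy⟩
  have hC' : 0 < C * TH591.TT.fac q m N := mul_pos hC (TH591.TT.fac_pos q m N)
  have key := H κ K hK.conv hK.comp hK.int hsym (C * TH591.TT.fac q m N) hC'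
    (fun A hA hprob hnn hmeas hlc hiso s hs hmom v hv hvb => by
      have hρ : TH591.TT.GD (TH591.TT.GS ι) (Pool.Agent.W695.KH.rh K A) := by
        refine ⟨hnn, hmeas, hlc, ?_⟩
        rintro e ⟨g, hg, he⟩ x
        refine hiso e (fun y => ⟨fun hy => ?_, fun hy => ?_⟩) x
        · refine hinv gᵀ ((hrot _).2 hg.tp) _ _ ((hact _ _ _).2 ?_) hy
          rw [he, TH591.TT.RR_RR, TH591.TT.orth2 hg.1, TH591.TT.RR_one]
        · exact hinv g ((hrot g).2 hg) _ _ ((hact _ _ _).2 (he y)) hy
      have hP : IsProbabilityMeasure (H212R2.KLS.mu (Pool.Agent.W695.KH.rh K A)) := ⟨hprob⟩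
      exact TH591.TT.mainG hC' (h hN ι hι') _ hρ hprob s hs hmom v hv
        (MemLp.of_bound hv.continuous.aestronglyMeasurable 1 (Filter.Eventually.of_forall hvb)))
  intro t ht A hA
  have h1 := key (unif K) rfl t ht A hA
  have e1 : Real.sqrt (C * TH591.TT.fac q m N) =
      Real.sqrt C * (((q : ℝ) + 1) * (1 + (q + m) / N)) := by
    rw [Real.sqrt_mul hC.le]
    congr 1
    unfold TH591.TT.fac
    rw [← mul_pow]
    exact Real.sqrt_sq (by positivity)
  rw [e1, ← div_div] at h1
  exact h1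

end Pool.Agent.Results.MP_8d00da_gt.TensorTuplesCheeger
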